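import Pool.Agent.H68.FnDefs
import Pool.Agent.H68.Fn3

set_option autoImplicit false

namespace Pool.Agent.Results.MP_56d54d_al.NotDirected

open Pool.Agent.H68.Fn

theorem result : ∃ (R : Type) (_ : Ring R), FNoeth R ∧ ¬ DirFNoeth R := main

end Pool.Agent.Results.MP_56d54d_al.NotDirected
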